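import Mathlib

/-!
# Coefficient bounds for sparse polynomials (generalized Vandermonde inverse)

Row A of MP_78efad_nt. For N distinct exponents `e` and N distinct positive nodes `x`
every coefficient of `sum_k b_k t^(e_k)` is bounded by the values at the nodes, with the
weights `x_j^(-e_i) prod_(k /= j) (x_j + x_k)/|x_j - x_k|`. The proof uses the rule of signs
of Descartes.
-/

set_option linter.all false

namespace Pool.Agent.TWP.VandA

open Polynomial Finset

/-! ## sign variations -/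

lemma sv_le_card (n : ℕ) : ∀ P : ℝ[X], P.support.card ≤ n + 1 → P.signVariations ≤ n := by
  induction n with
  | zero =>
    intro P h
    obtain ⟨m, a, rfl⟩ := card_support_le_one_iff_monomial.mp h
    simp
  | succ n ih =>
    intro P h
    by_cases hP : P = 0
    · simp [hP]
    · have h1 : P.eraseLead.support.card < P.support.card := eraseLead_support_card_lt hP
      have h2 := ih P.eraseLead (by omega)
      have h3 := signVariations_le_eraseLead_succ P
      omega

lemma sv_zero_aux (n : ℕ) : ∀ P : ℝ[X], P.support.card ≤ n → P.signVariations = 0 →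
    0 ≤ P.leadingCoeff → ∀ i, 0 ≤ P.coeff i := by
  induction n with
  | zero =>
    intro P h _ _ i
    have : P = 0 := by simpa using h
    simp [this]
  | succ n ih =>
    intro P h hs hl i
    by_cases hP : P = 0
    · simp [hP]
    have hl' : 0 < P.leadingCoeff := lt_of_le_of_ne hl (Ne.symm (leadingCoeff_ne_zero.mpr hP))
    have h1 : P.eraseLead.support.card < P.support.card := eraseLead_support_card_lt hP
    have h2 := signVariations_eq_eraseLead_add_ite hP
    rw [hs] at h2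
    have h3 : P.eraseLead.signVariations = 0 := by omega
    have h4 : ¬ (SignType.sign P.leadingCoeff = -SignType.sign P.eraseLead.leadingCoeff) := by
      intro hc
      rw [if_pos hc] at h2
      omega
    have h5 : 0 ≤ P.eraseLead.leadingCoeff := by
      by_contra hc
      push Not at hc
      apply h4
      rw [sign_pos hl', sign_neg hc]
      rfl
    have h6 := ih P.eraseLead (by omega) h3 h5
    by_cases hi : i = P.natDegree
    · rw [hi]
      exact hl
    · have := h6 i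
      rwa [eraseLead_coeff_of_ne i hi] at this

lemma sv_zero (P : ℝ[X]) (hs : P.signVariations = 0) :
    (∀ i, 0 ≤ P.coeff i) ∨ (∀ i, P.coeff i ≤ 0) := by
  rcases le_total 0 P.leadingCoeff with h | h
  · left
    exact sv_zero_aux _ P le_rfl hs h
  · right
    have h1 := sv_zero_aux _ (-P) le_rfl (by rw [signVariations_neg]; exact hs)
      (by rw [leadingCoeff_neg]; linarith)
    intro i
    have := h1 i
    rw [coeff_neg] at this
    linarith

lemma sv_prod {ι : Type*} [DecidableEq ι] (x : ι → ℝ) (G : ℝ[X]) (hG : G ≠ 0) (T : Finset ι)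
    (hx : ∀ k ∈ T, 0 < x k) :
    G.signVariations + T.card ≤ ((∏ k ∈ T, (X - C (x k))) * G).signVariations := by
  induction T using Finset.induction_on with
  | empty => simp
  | insert a T ha ih =>
    have h1 := ih (fun k hk => hx k (mem_insert_of_mem hk))
    have h2 : (∏ k ∈ T, (X - C (x k))) * G ≠ 0 := by
      apply mul_ne_zero _ hG
      exact prod_ne_zero_iff.mpr (fun k _ => X_sub_C_ne_zero _)
    have h3 := succ_signVariations_le_X_sub_C_mul (hx a (mem_insert_self _ _)) h2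
    rw [prod_insert ha, card_insert_of_notMem ha, mul_assoc]
    omega

lemma exists_factor {ι : Type*} [DecidableEq ι] (x : ι → ℝ) (T : Finset ι)
    (hx : Set.InjOn x T) (P : ℝ[X]) (hr : ∀ k ∈ T, P.eval (x k) = 0) :
    ∃ G : ℝ[X], P = (∏ k ∈ T, (X - C (x k))) * G := by
  have : (∏ k ∈ T, (X - C (x k))) ∣ P := by
    apply Finset.prod_dvd_of_coprime
    · intro a ha b hb hab
      exact isCoprime_X_sub_C_of_isUnit_sub (by
        have : x a ≠ x b := fun h => hab (hx ha hb h)
        exact (sub_ne_zero.mpr this).isUnit)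
    · intro k hk
      exact dvd_iff_isRoot.mpr (hr k hk)
  exact this

/-! ## domination of coefficients -/

lemma dom_prod {ι : Type*} [DecidableEq ι] (x : ι → ℝ) (A B : ℝ[X])
    (hAB : ∀ i, |A.coeff i| ≤ B.coeff i) (T : Finset ι) (hx : ∀ k ∈ T, 0 < x k) :
    ∀ i, |((∏ k ∈ T, (X - C (x k))) * A).coeff i| ≤ ((∏ k ∈ T, (X + C (x k))) * B).coeff i := by
  induction T using Finset.induction_on with
  | empty => simpa using hAB
  | insert a T ha ih =>
    have h1 := ih (fun k hk => hx k (mem_insert_of_mem hk))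
    have ha0 : 0 < x a := hx a (mem_insert_self _ _)
    intro i
    rw [prod_insert ha, prod_insert ha, mul_assoc, mul_assoc, sub_mul, add_mul, coeff_sub,
      coeff_add, coeff_C_mul, coeff_C_mul]
    rcases i with _ | i
    · rw [coeff_X_mul_zero, coeff_X_mul_zero, zero_sub, zero_add, abs_neg, abs_mul,
        abs_of_pos ha0]
      exact mul_le_mul_of_nonneg_left (h1 0) ha0.le
    · rw [coeff_X_mul, coeff_X_mul]
      calc |((∏ k ∈ T, (X - C (x k))) * A).coeff i
            - x a * ((∏ k ∈ T, (X - C (x k))) * A).coeff (i + 1)|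
          ≤ |((∏ k ∈ T, (X - C (x k))) * A).coeff i|
            + |x a * ((∏ k ∈ T, (X - C (x k))) * A).coeff (i + 1)| := abs_sub _ _
        _ ≤ _ := by
            rw [abs_mul, abs_of_pos ha0]
            exact add_le_add (h1 i) (mul_le_mul_of_nonneg_left (h1 (i + 1)) ha0.le)

lemma coeff_mul_pow_le (B : ℝ[X]) (hB : ∀ i, 0 ≤ B.coeff i) (t : ℝ) (ht : 0 ≤ t) (i : ℕ) :
    B.coeff i * t ^ i ≤ B.eval t := by
  rw [eval_eq_sum, Polynomial.sum]
  by_cases hi : i ∈ B.support
  · exact single_le_sum (f := fun i => B.coeff i * t ^ i)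
      (fun k _ => mul_nonneg (hB k) (pow_nonneg ht k)) hi
  · rw [notMem_support_iff.mp hi, zero_mul]
    exact sum_nonneg (fun k _ => mul_nonneg (hB k) (pow_nonneg ht k))

/-- A sparse polynomial with at most `T.card + 1` terms and the positive roots `x k`, `k` in `T`:
every coefficient is bounded by any value at a positive point. -/
lemma sparse_coeff_bound {ι : Type*} [DecidableEq ι] (x : ι → ℝ) (T : Finset ι)
    (hx : ∀ k ∈ T, 0 < x k) (hinj : Set.InjOn x T) (P : ℝ[X])
    (hc : P.support.card ≤ T.card + 1) (hr : ∀ k ∈ T, P.eval (x k) = 0) (t : ℝ) (ht : 0 < t)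
    (i : ℕ) :
    |P.coeff i| * t ^ i * ∏ k ∈ T, |t - x k| ≤ |P.eval t| * ∏ k ∈ T, (t + x k) := by
  by_cases hP : P = 0
  · simp [hP]
  obtain ⟨G, hG⟩ := exists_factor x T hinj P hr
  have hG0 : G ≠ 0 := by
    rintro rfl
    exact hP (by rw [hG, mul_zero])
  have h1 := sv_prod x G hG0 T hx
  rw [← hG] at h1
  have h2 := sv_le_card T.card P hc
  have h3 : G.signVariations = 0 := by omega
  -- the polynomial with the absolute values
  obtain ⟨B, hB, hB2⟩ : ∃ B : ℝ[X], (∀ i, |G.coeff i| ≤ B.coeff i) ∧ B.eval t = |G.eval t| ∧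
      ∀ i, 0 ≤ B.coeff i := by
    rcases sv_zero G h3 with h | h
    · refine ⟨G, fun i => by rw [abs_of_nonneg (h i)], ?_, h⟩
      rw [abs_of_nonneg]
      rw [eval_eq_sum, Polynomial.sum]
      exact sum_nonneg (fun k _ => mul_nonneg (h k) (pow_nonneg ht.le k))
    · refine ⟨-G, fun i => by rw [coeff_neg, abs_of_nonpos (h i)], ?_,
        fun i => by rw [coeff_neg]; linarith [h i]⟩
      rw [eval_neg, abs_of_nonpos]
      rw [eval_eq_sum, Polynomial.sum]
      exact sum_nonpos (fun k _ => mul_nonpos_of_nonpos_of_nonneg (h k) (pow_nonneg ht.le k))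
  obtain ⟨hB2, hB3⟩ := hB2
  have h4 := dom_prod x G B hB T hx i
  rw [← hG] at h4
  have h5 : ∀ i, 0 ≤ ((∏ k ∈ T, (X + C (x k))) * B).coeff i := fun i =>
    le_trans (abs_nonneg _) (dom_prod x G B hB T hx i)
  have h6 := coeff_mul_pow_le _ h5 t ht.le i
  have h7 : ((∏ k ∈ T, (X + C (x k))) * B).eval t = (∏ k ∈ T, (t + x k)) * |G.eval t| := by
    rw [eval_mul, hB2, eval_prod]
    simp
  have h8 : |P.eval t| = (∏ k ∈ T, |t - x k|) * |G.eval t| := by
    rw [hG, eval_mul, abs_mul, eval_prod, abs_prod]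
    simp
  have h9 : |P.coeff i| * t ^ i ≤ (∏ k ∈ T, (t + x k)) * |G.eval t| := by
    refine le_trans (mul_le_mul_of_nonneg_right h4 (pow_nonneg ht.le i)) ?_
    rw [← h7]
    exact h6
  have h10 : 0 ≤ ∏ k ∈ T, |t - x k| := prod_nonneg (fun k _ => abs_nonneg _)
  calc |P.coeff i| * t ^ i * ∏ k ∈ T, |t - x k|
      ≤ ((∏ k ∈ T, (t + x k)) * |G.eval t|) * ∏ k ∈ T, |t - x k| :=
        mul_le_mul_of_nonneg_right h9 h10
    _ = |P.eval t| * ∏ k ∈ T, (t + x k) := by rw [h8]; ring

/-! ## the sparse polynomial of a vector -/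

noncomputable def sp {N : ℕ} (e : Fin N → ℕ) (b : Fin N → ℝ) : ℝ[X] :=
  ∑ k, monomial (e k) (b k)

lemma sp_coeff {N : ℕ} (e : Fin N → ℕ) (he : Function.Injective e) (b : Fin N → ℝ) (i : Fin N) :
    (sp e b).coeff (e i) = b i := by
  unfold sp
  rw [finset_sum_coeff, sum_eq_single i]
  · simp
  · intro k _ hk
    rw [coeff_monomial, if_neg (fun h => hk (he h))]
  · simp

lemma sp_eval {N : ℕ} (e : Fin N → ℕ) (b : Fin N → ℝ) (t : ℝ) :
    (sp e b).eval t = ∑ k, b k * t ^ (e k) := by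
  unfold sp
  rw [eval_finset_sum]
  simp

lemma sp_card {N : ℕ} (e : Fin N → ℕ) (b : Fin N → ℝ) : (sp e b).support.card ≤ N := by
  classical
  have h : (sp e b).support ⊆ univ.image e := by
    intro i hi
    rw [mem_support_iff] at hi
    by_contra hc
    apply hi
    unfold sp
    rw [finset_sum_coeff]
    apply sum_eq_zero
    intro k _
    rw [coeff_monomial, if_neg]
    intro h
    exact hc (mem_image.mpr ⟨k, mem_univ _, h⟩)
  refine le_trans (card_le_card h) (le_trans card_image_le ?_)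
  simp

lemma sp_inj {N : ℕ} (e : Fin N → ℕ) (he : Function.Injective e) (x : Fin N → ℝ)
    (hx : ∀ k, 0 < x k) (hinj : Function.Injective x) (b : Fin N → ℝ)
    (h : ∀ j, ∑ k, b k * x j ^ (e k) = 0) : b = 0 := by
  classical
  rcases N with _ | n
  · exact Subsingleton.elim _ _
  by_contra hb
  have hP : sp e b ≠ 0 := by
    intro h0
    apply hb
    funext i
    rw [← sp_coeff e he b i, h0]
    simp
  obtain ⟨G, hG⟩ := exists_factor x univ (hinj.injOn) (sp e b)
    (fun k _ => by rw [sp_eval]; exact h k)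
  have hG0 : G ≠ 0 := by
    rintro rfl
    exact hP (by rw [hG, mul_zero])
  have h1 := sv_prod x G hG0 univ (fun k _ => hx k)
  rw [← hG] at h1
  have h2 := sv_le_card n (sp e b) (sp_card e b)
  simp at h1
  omega

/-- The inverse of the generalized Vandermonde matrix, with the bound for its entries. -/
theorem exists_inverse {N : ℕ} (e : Fin N → ℕ) (he : Function.Injective e) (x : Fin N → ℝ)
    (hx : ∀ k, 0 < x k) (hinj : Function.Injective x) :
    ∃ V : Fin N → Fin N → ℝ, (∀ i k, ∑ j, V i j * x j ^ (e k) = if i = k then 1 else 0) ∧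
      ∀ i j, |V i j| * x j ^ (e i) * ∏ k ∈ univ.erase j, |x j - x k| ≤
        ∏ k ∈ univ.erase j, (x j + x k) := by
  classical
  let φ : (Fin N → ℝ) →ₗ[ℝ] (Fin N → ℝ) :=
    { toFun := fun b j => ∑ k, b k * x j ^ (e k)
      map_add' := by
        intro b c
        funext j
        simp [add_mul, sum_add_distrib]
      map_smul' := by
        intro r b
        funext j
        simp [mul_assoc, mul_sum] }
  have hφ : Function.Injective φ := by
    rw [← LinearMap.ker_eq_bot, LinearMap.ker_eq_bot']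
    intro b hb
    exact sp_inj e he x hx hinj b (fun j => congrFun hb j)
  have hφs : Function.Surjective φ := LinearMap.injective_iff_surjective.mp hφ
  choose v hv using fun j : Fin N => hφs (Pi.single j 1)
  have hv' : ∀ j l, ∑ k, v j k * x l ^ (e k) = if l = j then 1 else 0 := by
    intro j l
    have := congrFun (hv j) l
    simpa [φ, Pi.single_apply] using this
  refine ⟨fun i j => v j i, ?_, ?_⟩
  · have hM : (Matrix.of (fun l k : Fin N => x l ^ (e k))) * (Matrix.of (fun i j => v j i)) = 1 := by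
      ext l j
      rw [Matrix.mul_apply, Matrix.one_apply]
      simp only [Matrix.of_apply]
      rw [← hv' j l]
      exact sum_congr rfl (fun k _ => mul_comm _ _)
    have hM' := mul_eq_one_comm.mp hM
    intro i k
    have := congrFun (congrFun hM' i) k
    rw [Matrix.mul_apply, Matrix.one_apply] at this
    simpa using this
  · intro i j
    have h1 := sparse_coeff_bound x (univ.erase j) (fun k _ => hx k) hinj.injOn (sp e (v j))
      (by
        refine le_trans (sp_card e _) ?_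
        rw [card_erase_of_mem (mem_univ j)]
        simp
        omega)
      (fun k hk => by
        rw [sp_eval, hv' j k, if_neg (ne_of_mem_erase hk)])
      (x j) (hx j) (e i)
    rw [sp_coeff e he, sp_eval, hv' j j, if_pos rfl, abs_one, one_mul] at h1
    exact h1

/-- **Lemma A.** Every coefficient of a sparse polynomial is bounded by its values. -/
theorem coeff_bound {N : ℕ} (e : Fin N → ℕ) (he : Function.Injective e) (x : Fin N → ℝ)
    (hx : ∀ k, 0 < x k) (hinj : Function.Injective x) (b : Fin N → ℂ) (i : Fin N) :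
    ‖b i‖ ≤ ∑ j, ‖∑ k, b k * (x j : ℂ) ^ (e k)‖ *
      (((x j) ^ (e i))⁻¹ * ∏ k ∈ univ.erase j, ((x j + x k) / |x j - x k|)) := by
  classical
  obtain ⟨V, hV, hVb⟩ := exists_inverse e he x hx hinj
  have h1 : b i = ∑ j, (V i j : ℂ) * ∑ k, b k * (x j : ℂ) ^ (e k) := by
    calc b i = ∑ k, b k * (if i = k then 1 else 0) := by simp
      _ = ∑ k, b k * ((∑ j, V i j * x j ^ (e k) : ℝ) : ℂ) := by
          refine sum_congr rfl (fun k _ => ?_)
          rw [hV i k]
          split_ifs <;> simp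
      _ = ∑ k, ∑ j, (V i j : ℂ) * (b k * (x j : ℂ) ^ (e k)) := by
          refine sum_congr rfl (fun k _ => ?_)
          push_cast
          rw [mul_sum]
          exact sum_congr rfl (fun j _ => by ring)
      _ = ∑ j, (V i j : ℂ) * ∑ k, b k * (x j : ℂ) ^ (e k) := by
          rw [sum_comm]
          exact sum_congr rfl (fun j _ => by rw [mul_sum])
  rw [h1]
  refine le_trans (norm_sum_le _ _) (sum_le_sum (fun j _ => ?_))
  rw [norm_mul, mul_comm]
  apply mul_le_mul_of_nonneg_left _ (norm_nonneg _)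
  rw [Complex.norm_real, Real.norm_eq_abs, prod_div_distrib]
  have h2 : 0 < ∏ k ∈ univ.erase j, |x j - x k| := by
    apply prod_pos
    intro k hk
    exact abs_pos.mpr (sub_ne_zero.mpr (fun h => (ne_of_mem_erase hk) (hinj h).symm))
  have h3 : 0 < x j ^ (e i) := pow_pos (hx j) _
  rw [← div_eq_inv_mul, div_div, le_div_iff₀ (mul_pos h2 h3)]
  calc |V i j| * ((∏ k ∈ univ.erase j, |x j - x k|) * x j ^ (e i))
      = |V i j| * x j ^ (e i) * ∏ k ∈ univ.erase j, |x j - x k| := by ring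
    _ ≤ _ := hVb i j

/-! ## nodes in arithmetic progression -/

lemma prod_low (j : ℕ) : ∏ k ∈ range j, (((j : ℝ) + k + 2) / |(j : ℝ) - k|) ≤ 2 ^ (2 * j + 1) := by
  have h1 : ∏ k ∈ range j, ((j : ℝ) + k + 2) = ((j.factorial * (2 * j + 1).choose j : ℕ) : ℝ) := by
    have := Nat.ascFactorial_eq_prod_range (j + 2) j
    rw [Nat.ascFactorial_eq_factorial_mul_choose'] at this
    rw [show j + 2 + j - 1 = 2 * j + 1 by omega] at this
    rw [this]
    push_cast
    exact prod_congr rfl (fun k _ => by ring)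
  have h2 : ∏ k ∈ range j, |(j : ℝ) - k| = (j.factorial : ℝ) := by
    rw [← prod_range_add_one_eq_factorial, ← prod_range_reflect]
    push_cast
    refine prod_congr rfl (fun k hk => ?_)
    rw [mem_range] at hk
    rw [show j - 1 - k = j - (k + 1) by omega, Nat.cast_sub (by omega)]
    rw [show (j : ℝ) - ((j : ℝ) - ((k + 1 : ℕ) : ℝ)) = (k : ℝ) + 1 by push_cast; ring]
    exact abs_of_pos (by positivity)
  rw [prod_div_distrib, h1, h2]
  push_cast
  rw [mul_div_cancel_left₀ _ (by positivity)]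
  exact_mod_cast Nat.choose_le_two_pow _ _

lemma prod_high (j M : ℕ) : ∏ i ∈ range M, (((j : ℝ) + ((j + 1 + i : ℕ) : ℝ) + 2) /
    |(j : ℝ) - ((j + 1 + i : ℕ) : ℝ)|) ≤ 2 ^ (2 * j + 2 + M) := by
  have h1 : ∏ i ∈ range M, ((j : ℝ) + ((j + 1 + i : ℕ) : ℝ) + 2) =
      ((M.factorial * (2 * j + 2 + M).choose M : ℕ) : ℝ) := by
    have := Nat.ascFactorial_eq_prod_range (2 * j + 3) M
    rw [Nat.ascFactorial_eq_factorial_mul_choose'] at this
    rw [show 2 * j + 3 + M - 1 = 2 * j + 2 + M by omega] at this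
    rw [this]
    push_cast
    exact prod_congr rfl (fun k _ => by ring)
  have h2 : ∏ i ∈ range M, |(j : ℝ) - ((j + 1 + i : ℕ) : ℝ)| = (M.factorial : ℝ) := by
    rw [← prod_range_add_one_eq_factorial]
    push_cast
    refine prod_congr rfl (fun k hk => ?_)
    rw [show (j : ℝ) - ((j : ℝ) + 1 + (k : ℝ)) = -((k : ℝ) + 1) by ring, abs_neg]
    exact abs_of_pos (by positivity)
  rw [prod_div_distrib, h1, h2]
  push_cast
  rw [mul_div_cancel_left₀ _ (by positivity)]
  exact_mod_cast Nat.choose_le_two_pow _ _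

lemma prod_all (N : ℕ) (j : Fin N) :
    ∏ k ∈ univ.erase j, (((j : ℕ) : ℝ) + ((k : ℕ) : ℝ) + 2) / |((j : ℕ) : ℝ) - ((k : ℕ) : ℝ)| ≤
      16 ^ N := by
  classical
  obtain ⟨j, hj⟩ := j
  obtain ⟨M, rfl⟩ : ∃ M, N = j + 1 + M := ⟨N - (j + 1), by omega⟩
  have h1 : ∏ k ∈ univ.erase (⟨j, hj⟩ : Fin (j + 1 + M)),
      ((j : ℝ) + ((k : ℕ) : ℝ) + 2) / |(j : ℝ) - ((k : ℕ) : ℝ)| =
      ∏ k : Fin (j + 1 + M), (fun k : ℕ => if k = j then (1 : ℝ) else
        ((j : ℝ) + (k : ℝ) + 2) / |(j : ℝ) - (k : ℝ)|) k := by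
    rw [← mul_prod_erase univ _ (mem_univ (⟨j, hj⟩ : Fin (j + 1 + M)))]
    simp only [if_true, one_mul]
    refine prod_congr rfl (fun k hk => ?_)
    rw [if_neg]
    intro h
    exact (ne_of_mem_erase hk) (Fin.ext h)
  simp only
  rw [h1, Fin.prod_univ_eq_prod_range (fun k : ℕ => if k = j then (1 : ℝ) else
        ((j : ℝ) + (k : ℝ) + 2) / |(j : ℝ) - (k : ℝ)|) (j + 1 + M), prod_range_add,
    prod_range_succ, if_pos rfl, mul_one]
  have h2 : ∏ k ∈ range j, (if k = j then (1 : ℝ) else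
        ((j : ℝ) + (k : ℝ) + 2) / |(j : ℝ) - (k : ℝ)|) ≤ 2 ^ (2 * j + 1) := by
    refine le_trans (le_of_eq (prod_congr rfl (fun k hk => ?_))) (prod_low j)
    rw [mem_range] at hk
    rw [if_neg (by omega)]
  have h3 : ∏ i ∈ range M, (if j + 1 + i = j then (1 : ℝ) else
        ((j : ℝ) + ((j + 1 + i : ℕ) : ℝ) + 2) / |(j : ℝ) - ((j + 1 + i : ℕ) : ℝ)|) ≤
        2 ^ (2 * j + 2 + M) := by
    refine le_trans (le_of_eq (prod_congr rfl (fun k hk => ?_))) (prod_high j M)
    rw [if_neg (by omega)]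
  have h4 : (0 : ℝ) ≤ ∏ i ∈ range M, (if j + 1 + i = j then (1 : ℝ) else
        ((j : ℝ) + ((j + 1 + i : ℕ) : ℝ) + 2) / |(j : ℝ) - ((j + 1 + i : ℕ) : ℝ)|) := by
    apply prod_nonneg
    intro k _
    split_ifs
    · norm_num
    · positivity
  refine le_trans (mul_le_mul h2 h3 h4 (by positivity)) ?_
  rw [← pow_add, show (16 : ℝ) = 2 ^ 4 by norm_num, ← pow_mul]
  exact pow_le_pow_right₀ (by norm_num) (by omega)

/-- **Corollary A'.** Nodes `1/(1 + j D)`, `j < N`. -/
theorem coeff_bound_ap {N : ℕ} (D : ℕ) (hD : 1 ≤ D) (e : Fin N → ℕ)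
    (he : Function.Injective e) (b : Fin N → ℂ) (ε : ℝ)
    (h : ∀ j : Fin N, ‖∑ k, b k * (((1 + (j : ℕ) * D : ℕ) : ℂ)⁻¹) ^ (e k)‖ ≤ ε) (i : Fin N) :
    ‖b i‖ ≤ N * 16 ^ N * ((D * N : ℕ) : ℝ) ^ (e i) * ε := by
  classical
  have hN : 0 < N := i.pos
  have hD' : (1 : ℝ) ≤ D := by exact_mod_cast hD
  set m : Fin N → ℝ := fun j => ((1 + (j : ℕ) * D : ℕ) : ℝ) with hm
  have hm0 : ∀ j, 0 < m j := fun j => by simp only [hm]; positivity
  have hε : 0 ≤ ε := le_trans (norm_nonneg _) (h i)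
  have hinj : Function.Injective (fun j => (m j)⁻¹) := by
    intro a c hac
    have h1 : m a = m c := inv_injective hac
    simp only [hm, Nat.cast_inj] at h1
    have h2 : (a : ℕ) * D = (c : ℕ) * D := by omega
    exact Fin.ext (Nat.eq_of_mul_eq_mul_right (by omega) h2)
  have h1 := coeff_bound e he (fun j => (m j)⁻¹) (fun j => inv_pos.mpr (hm0 j)) hinj b i
  refine le_trans h1 ?_
  have h2 : ∀ j ∈ (univ : Finset (Fin N)),
      ‖∑ k, b k * (((m j)⁻¹ : ℝ) : ℂ) ^ (e k)‖ *
      ((((m j)⁻¹) ^ (e i))⁻¹ * ∏ k ∈ univ.erase j, (((m j)⁻¹ + (m k)⁻¹) /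
        |(m j)⁻¹ - (m k)⁻¹|)) ≤ ε * (((D * N : ℕ) : ℝ) ^ (e i) * 16 ^ N) := by
    intro j _
    have h3 : ‖∑ k, b k * (((m j)⁻¹ : ℝ) : ℂ) ^ (e k)‖ ≤ ε := by
      have := h j
      simp only [hm]
      push_cast
      push_cast at this
      exact this
    have h4 : (((m j)⁻¹) ^ (e i))⁻¹ ≤ ((D * N : ℕ) : ℝ) ^ (e i) := by
      rw [inv_pow, inv_inv]
      apply pow_le_pow_left₀ (hm0 j).le
      simp only [hm]
      have hj : (j : ℕ) + 1 ≤ N := j.2
      have : 1 + (j : ℕ) * D ≤ D * N := by nlinarith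
      exact_mod_cast this
    have h5 : ∏ k ∈ univ.erase j, (((m j)⁻¹ + (m k)⁻¹) / |(m j)⁻¹ - (m k)⁻¹|) ≤ 16 ^ N := by
      refine le_trans (prod_le_prod (fun k _ => ?_) (fun k hk => ?_)) (prod_all N j)
      · have := hm0 j
        have := hm0 k
        positivity
      · have hjk : k ≠ j := ne_of_mem_erase hk
        have hne : ((j : ℕ) : ℝ) - ((k : ℕ) : ℝ) ≠ 0 := by
          intro hc
          apply hjk
          apply Fin.ext
          have : ((j : ℕ) : ℝ) = ((k : ℕ) : ℝ) := by linarith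
          exact_mod_cast this.symm
        have ha := hm0 j
        have hb := hm0 k
        have hmjk : m j - m k = (((j : ℕ) : ℝ) - ((k : ℕ) : ℝ)) * D := by
          simp only [hm]
          push_cast
          ring
        have h6 : |(m j)⁻¹ - (m k)⁻¹| = |m j - m k| / (m j * m k) := by
          rw [inv_sub_inv ha.ne' hb.ne', abs_div, abs_of_pos (mul_pos ha hb), abs_sub_comm]
        have h7 : (m j)⁻¹ + (m k)⁻¹ = (m j + m k) / (m j * m k) := by
          field_simp
          ring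
        rw [h6, h7, div_div_div_cancel_right₀ (mul_pos ha hb).ne', hmjk, abs_mul,
          abs_of_pos (by linarith : (0 : ℝ) < D)]
        have h8 : 0 < |((j : ℕ) : ℝ) - ((k : ℕ) : ℝ)| := abs_pos.mpr hne
        rw [div_le_div_iff₀ (by positivity) h8]
        have h9 : m j + m k ≤ (((j : ℕ) : ℝ) + ((k : ℕ) : ℝ) + 2) * D := by
          simp only [hm]
          push_cast
          nlinarith
        calc (m j + m k) * |((j : ℕ) : ℝ) - ((k : ℕ) : ℝ)|
            ≤ ((((j : ℕ) : ℝ) + ((k : ℕ) : ℝ) + 2) * D) * |((j : ℕ) : ℝ) - ((k : ℕ) : ℝ)| :=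
              mul_le_mul_of_nonneg_right h9 h8.le
          _ = _ := by ring
    have h10 : (0 : ℝ) ≤ ∏ k ∈ univ.erase j, (((m j)⁻¹ + (m k)⁻¹) / |(m j)⁻¹ - (m k)⁻¹|) := by
      apply prod_nonneg
      intro k _
      have := hm0 j
      have := hm0 k
      positivity
    have h11 : (0 : ℝ) ≤ (((m j)⁻¹) ^ (e i))⁻¹ := by
      have := hm0 j
      positivity
    exact mul_le_mul h3 (mul_le_mul h4 h5 h10 (by positivity)) (mul_nonneg h11 h10) hε
  refine le_trans (sum_le_sum h2) ?_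
  rw [sum_const, card_univ, Fintype.card_fin, nsmul_eq_mul]
  apply le_of_eq
  ring

/-! ## arbitrary integer nodes in `[1, M]` -/

lemma prod_nodes {N M : ℕ} (m : Fin N → ℕ) (hm : Function.Injective m) (h1 : ∀ j, 1 ≤ m j)
    (h2 : ∀ j, m j ≤ M) (j : Fin N) :
    ∏ k ∈ univ.erase j, ((m j : ℝ) + (m k : ℝ)) / |(m j : ℝ) - (m k : ℝ)| ≤ 16 ^ M := by
  classical
  let φ : Fin N → Fin M := fun k => ⟨m k - 1, by have := h1 k; have := h2 k; omega⟩
  have hφ : Function.Injective φ := by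
    intro a c hac
    apply hm
    have : m a - 1 = m c - 1 := congrArg Fin.val hac
    have := h1 a
    have := h1 c
    omega
  have hc : ∀ k, (m k : ℝ) = ((φ k : ℕ) : ℝ) + 1 := by
    intro k
    have := h1 k
    have h : m k = (φ k : ℕ) + 1 := by
      show m k = (m k - 1) + 1
      omega
    rw [h]
    push_cast
    ring
  set g : Fin M → ℝ := fun i => (((φ j : ℕ) : ℝ) + ((i : ℕ) : ℝ) + 2) /
    |((φ j : ℕ) : ℝ) - ((i : ℕ) : ℝ)| with hg
  have e1 : ∏ k ∈ univ.erase j, ((m j : ℝ) + (m k : ℝ)) / |(m j : ℝ) - (m k : ℝ)| =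
      ∏ i ∈ (univ.erase j).image φ, g i := by
    rw [prod_image (fun a _ c _ h => hφ h)]
    refine prod_congr rfl (fun k _ => ?_)
    simp only [hg]
    rw [hc j, hc k]
    congr 1
    · ring
    · congr 1
      ring
  have hsub : (univ.erase j).image φ ⊆ univ.erase (φ j) := by
    intro i hi
    obtain ⟨k, hk, rfl⟩ := mem_image.mp hi
    exact mem_erase.mpr ⟨fun h => (ne_of_mem_erase hk) (hφ h), mem_univ _⟩
  have hg1 : ∀ i ∈ univ.erase (φ j), 1 ≤ g i := by
    intro i hi
    simp only [hg]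
    have hne : ((φ j : ℕ) : ℝ) - ((i : ℕ) : ℝ) ≠ 0 := by
      intro h0
      apply ne_of_mem_erase hi
      apply Fin.ext
      have : ((i : ℕ) : ℝ) = ((φ j : ℕ) : ℝ) := by linarith
      exact_mod_cast this
    rw [le_div_iff₀ (abs_pos.mpr hne), one_mul]
    have h0 : (0 : ℝ) ≤ ((φ j : ℕ) : ℝ) := Nat.cast_nonneg _
    have h0' : (0 : ℝ) ≤ ((i : ℕ) : ℝ) := Nat.cast_nonneg _
    rw [abs_le]
    constructor <;> linarith
  rw [e1]
  refine le_trans ?_ (prod_all M (φ j))
  show _ ≤ ∏ i ∈ univ.erase (φ j), g i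
  rw [← prod_sdiff hsub]
  have hge : 1 ≤ ∏ i ∈ (univ.erase (φ j)) \ ((univ.erase j).image φ), g i := by
    refine prod_induction g (fun x => (1 : ℝ) ≤ x) (fun a b ha hb => ?_) le_rfl
      (fun i hi => hg1 i (mem_sdiff.mp hi).1)
    exact one_le_mul_of_one_le_of_one_le ha hb
  have h0 : 0 ≤ ∏ i ∈ (univ.erase j).image φ, g i :=
    prod_nonneg (fun i hi => le_trans zero_le_one (hg1 i (hsub hi)))
  exact le_mul_of_one_le_left h0 hge

/-- **Corollary A''.** Nodes `1/m_j`, `m_j` distinct integers in `[1, M]`. -/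
theorem coeff_bound_nodes {N M : ℕ} (m : Fin N → ℕ) (hm : Function.Injective m)
    (hm1 : ∀ j, 1 ≤ m j) (hmM : ∀ j, m j ≤ M) (e : Fin N → ℕ)
    (he : Function.Injective e) (b : Fin N → ℂ) (ε : ℝ)
    (h : ∀ j : Fin N, ‖∑ k, b k * ((m j : ℂ)⁻¹) ^ (e k)‖ ≤ ε) (i : Fin N) :
    ‖b i‖ ≤ N * 16 ^ M * (M : ℝ) ^ (e i) * ε := by
  classical
  have hm0 : ∀ j, (0 : ℝ) < m j := fun j => by exact_mod_cast hm1 j
  have hε : 0 ≤ ε := le_trans (norm_nonneg _) (h i)
  have hinj : Function.Injective (fun j => ((m j : ℝ))⁻¹) := by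
    intro a c hac
    have h1 : (m a : ℝ) = m c := inv_injective hac
    exact hm (by exact_mod_cast h1)
  have h1 := coeff_bound e he (fun j => ((m j : ℝ))⁻¹) (fun j => inv_pos.mpr (hm0 j)) hinj b i
  refine le_trans h1 ?_
  have h2 : ∀ j ∈ (univ : Finset (Fin N)),
      ‖∑ k, b k * (((m j : ℝ)⁻¹ : ℝ) : ℂ) ^ (e k)‖ *
      ((((m j : ℝ)⁻¹) ^ (e i))⁻¹ * ∏ k ∈ univ.erase j, (((m j : ℝ)⁻¹ + (m k : ℝ)⁻¹) /
        |(m j : ℝ)⁻¹ - (m k : ℝ)⁻¹|)) ≤ ε * ((M : ℝ) ^ (e i) * 16 ^ M) := by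
    intro j _
    have h3 : ‖∑ k, b k * (((m j : ℝ)⁻¹ : ℝ) : ℂ) ^ (e k)‖ ≤ ε := by
      have := h j
      push_cast
      exact this
    have h4 : (((m j : ℝ)⁻¹) ^ (e i))⁻¹ ≤ (M : ℝ) ^ (e i) := by
      rw [inv_pow, inv_inv]
      apply pow_le_pow_left₀ (hm0 j).le
      exact_mod_cast hmM j
    have h5 : ∏ k ∈ univ.erase j, (((m j : ℝ)⁻¹ + (m k : ℝ)⁻¹) / |(m j : ℝ)⁻¹ - (m k : ℝ)⁻¹|) ≤
        16 ^ M := by
      refine le_trans (le_of_eq (prod_congr rfl (fun k hk => ?_))) (prod_nodes m hm hm1 hmM j)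
      have ha := hm0 j
      have hb := hm0 k
      have h6 : |(m j : ℝ)⁻¹ - (m k : ℝ)⁻¹| = |(m j : ℝ) - m k| / (m j * m k) := by
        rw [inv_sub_inv ha.ne' hb.ne', abs_div, abs_of_pos (mul_pos ha hb), abs_sub_comm]
      have h7 : (m j : ℝ)⁻¹ + (m k : ℝ)⁻¹ = ((m j : ℝ) + m k) / (m j * m k) := by
        field_simp
        ring
      rw [h6, h7, div_div_div_cancel_right₀ (mul_pos ha hb).ne']
    have h10 : (0 : ℝ) ≤ ∏ k ∈ univ.erase j, (((m j : ℝ)⁻¹ + (m k : ℝ)⁻¹) /
        |(m j : ℝ)⁻¹ - (m k : ℝ)⁻¹|) := by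
      apply prod_nonneg
      intro k _
      positivity
    have h11 : (0 : ℝ) ≤ (((m j : ℝ)⁻¹) ^ (e i))⁻¹ := by positivity
    exact mul_le_mul h3 (mul_le_mul h4 h5 h10 (by positivity)) (mul_nonneg h11 h10) hε
  refine le_trans (sum_le_sum h2) ?_
  rw [sum_const, card_univ, Fintype.card_fin, nsmul_eq_mul]
  apply le_of_eq
  ring

end Pool.Agent.TWP.VandA
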